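import Pool.Agent.Y560.TH.TDd
import Pool.Agent.Y560.TG.PL

/-!
Project TH: hereditarily decomposable structures with a group action. The coding and the decoding
are Borel, and the theorem, given the combinatorial part and the coding part.
-/

set_option autoImplicit false

namespace Pool.Agent.Y576.TH

open Set MeasureTheory
open Pool.Agent.H566P (XG Isom)
open Pool.Agent.Y560.TF (TO)
open Pool.Agent.Y560.TH
open Pool.Agent.Y560.TG.PL (meas_nth)
open Pool.Agent.W875.TS (me_dm)

/-! ### General facts -/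

section gen

variable {Ω : Type} [MeasurableSpace Ω]

theorem q_sub {g : Ω → ℕ} {P : Ω → ℕ → Prop} (hg : ∀ k, Measurable fun y => g y = k)
    (hP : ∀ k, Measurable fun y => P y k) : Measurable fun y => P y (g y) := by
  have h1 : (fun y => P y (g y)) = fun y => ∃ k, g y = k ∧ P y k := by
    funext y
    apply propext
    constructor
    · exact fun h => ⟨_, rfl, h⟩
    · rintro ⟨k, rfl, h⟩
      exact h
  rw [h1]
  exact Measurable.exists fun k => (hg k).and (hP k)

theorem q_sub2 {g g' : Ω → ℕ} {P : Ω → ℕ → ℕ → Prop} (hg : ∀ k, Measurable fun y => g y = k)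
    (hg' : ∀ k, Measurable fun y => g' y = k) (hP : ∀ k l, Measurable fun y => P y k l) :
    Measurable fun y => P y (g y) (g' y) :=
  q_sub (P := fun y k => P y k (g' y)) hg fun k => q_sub (P := fun y l => P y k l) hg' (hP k)

theorem q_seteq {A B : Ω → Set ℕ} (hA : ∀ w, Measurable fun x => w ∈ A x)
    (hB : ∀ w, Measurable fun x => w ∈ B x) : Measurable fun x => A x = B x := by
  have h1 : (fun x => A x = B x) = fun x => ∀ w, w ∈ A x ↔ w ∈ B x := by
    funext x
    exact propext Set.ext_iff
  rw [h1]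
  exact Measurable.forall fun w => (hA w).iff (hB w)

theorem q_sub' {A B : Ω → Set ℕ} (hA : ∀ w, Measurable fun x => w ∈ A x)
    (hB : ∀ w, Measurable fun x => w ∈ B x) : Measurable fun x => A x ⊆ B x := by
  have h1 : (fun x => A x ⊆ B x) = fun x => ∀ w, w ∈ A x → w ∈ B x := by
    funext x
    exact propext Iff.rfl
  rw [h1]
  exact Measurable.forall fun w => (hA w).imp (hB w)

theorem q_ssub {A B : Ω → Set ℕ} (hA : ∀ w, Measurable fun x => w ∈ A x)
    (hB : ∀ w, Measurable fun x => w ∈ B x) : Measurable fun x => A x ⊂ B x := by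
  have h1 : (fun x => A x ⊂ B x) = fun x => A x ⊆ B x ∧ ¬ B x ⊆ A x := by
    funext x
    exact propext Iff.rfl
  rw [h1]
  exact (q_sub' hA hB).and (q_sub' hB hA).not

theorem q_ss {A : Ω → Set ℕ} (hA : ∀ w, Measurable fun x => w ∈ A x) :
    Measurable fun x => (A x).Subsingleton := by
  have h1 : (fun x => (A x).Subsingleton) = fun x => ∀ a, a ∈ A x → ∀ b, b ∈ A x → a = b := by
    funext x
    exact propext ⟨fun h a ha b hb => h ha hb, fun h a ha b hb => h a ha b hb⟩
  rw [h1]
  exact Measurable.forall fun a => (hA a).imp (Measurable.forall fun b =>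
    (hA b).imp measurable_const)

theorem q_dec {p : Ω → Prop} {d : ∀ ω, Decidable (p ω)} (h : Measurable p) :
    Measurable fun ω => @decide (p ω) (d ω) := by
  refine measurable_to_bool ?_
  have : (fun ω => @decide (p ω) (d ω)) ⁻¹' {true} = {ω | p ω} := by
    ext ω
    simp
  rw [this]
  exact measurableSet_setOfPred.2 h

end gen

variable {Γ : Type}

/-! ### Structures with a sequence of binary relations -/

theorem d_1 (i m n : ℕ) : Measurable fun x : XB Γ => x.1 i m n :=
  (measurable_pi_apply n).comp ((measurable_pi_apply m).comp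
    ((measurable_pi_apply i).comp measurable_fst))

theorem d_2 (γ : Γ) (m : ℕ) : Measurable fun x : XB Γ => x.2.1 γ m :=
  (measurable_pi_apply m).comp ((measurable_pi_apply γ).comp
    (measurable_fst.comp measurable_snd))

theorem d_3 (i m : ℕ) : Measurable fun x : XB Γ => x.2.2 i m :=
  (measurable_pi_apply m).comp ((measurable_pi_apply i).comp
    (measurable_snd.comp measurable_snd))

theorem b_1 (i m n : ℕ) (c : Bool) : Measurable fun x : XB Γ => x.1 i m n = c :=
  measurableSet_setOfPred.1 (d_1 i m n (measurableSet_singleton c))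

theorem b_2 (γ : Γ) (m n : ℕ) : Measurable fun x : XB Γ => x.2.1 γ m = n :=
  measurableSet_setOfPred.1 (d_2 γ m (measurableSet_singleton n))

theorem b_3 (i m : ℕ) : Measurable fun x : XB Γ => x.2.2 i m = true :=
  measurableSet_setOfPred.1 (d_3 i m (measurableSet_singleton true))

theorem b_eq (i m n j k l : ℕ) : Measurable fun x : XB Γ => x.1 i m n = x.1 j k l :=
  measurableSet_setOfPred.1 (measurableSet_eq_fun (d_1 i m n) (d_1 j k l))

theorem b_cn (u v w : ℕ) : Measurable fun x : XB Γ => cn x.1 u v w :=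
  me_dm (R := fun x : XB Γ => bn x.1) (fun i t => d_1 i (t 0) (t 1)) u v w

theorem b_bf (u w : ℕ) : Measurable fun x : XB Γ => bf x.1 u w :=
  Measurable.exists fun i => (Measurable.forall fun j => measurable_const.imp
    (b_eq j u w j w u)).and ((b_1 i u w false).and (b_1 i w u true))

theorem b_Nd (u v w : ℕ) : Measurable fun x : XB Γ => w ∈ Nd x.1 u v :=
  (b_cn u v w).not

theorem b_Ch (u v w : ℕ) : Measurable fun x : XB Γ => w ∈ Ch x.1 u v :=
  measurable_const.or (b_cn u w v)

theorem b_Fs (u v w : ℕ) : Measurable fun x : XB Γ => w ∈ Fs x.1 u v :=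
  measurable_const.or ((b_bf v u).and ((b_cn u v w).not.and ((b_cn u w v).or (b_bf u w))))

theorem b_US (s : SS) (w : ℕ) : Measurable fun x : XB Γ => w ∈ US x.1 s := by
  unfold US
  by_cases h0 : s.2.2 = 0
  · simp only [if_pos h0]
    exact b_Nd _ _ _
  · by_cases h1 : s.2.2 = 1
    · simp only [if_neg h0, if_pos h1]
      exact b_Ch _ _ _
    · simp only [if_neg h0, if_neg h1]
      exact b_Fs _ _ _

theorem b_Pr (s : SS) (n : ℕ) : Measurable fun x : XB Γ => PrS x s n := by
  match n with
  | 0 => exact q_ss (b_US s)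
  | 1 =>
    exact Measurable.exists fun u => Measurable.exists fun v => measurable_const.and
      (q_seteq (b_US s) (b_Nd u v))
  | 2 =>
    exact Measurable.exists fun u => Measurable.exists fun v => measurable_const.and
      (q_seteq (b_US s) (b_Ch u v))
  | 3 =>
    exact Measurable.exists fun u => Measurable.exists fun v => (b_bf v u).and
      (q_seteq (b_US s) (b_Fs u v))
  | n + 4 =>
    refine Measurable.or ?_ (Measurable.or ?_ (Measurable.or ?_ ?_))
    · exact measurable_const.and (Measurable.exists fun u => Measurable.exists fun v =>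
        measurable_const.and ((q_seteq (b_US s) (b_Nd u v)).and ((b_bf v u).not.and
          (b_1 _ u v true))))
    · exact measurable_const.and (Measurable.exists fun u => Measurable.exists fun v =>
        measurable_const.and ((q_seteq (b_US s) (b_Nd u v)).and ((b_bf v u).not.and
          (b_1 _ v u true))))
    · exact measurable_const.and ((q_ss (b_US s)).and (b_3 _ _))
    · exact measurable_const.and ((q_ss (b_US s)).and (b_1 _ _ _ true))

/-! ### Decoding -/

theorem q_le (a b : ℕ) : Measurable fun y : XG Γ => lec y a b :=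
  measurable_const.or (m_1 a b)

theorem q_nd (a b K : ℕ) : Measurable fun y : XG Γ => ndy y a b K :=
  (m_3 1 K).and ((q_le K a).and ((q_le K b).and (Measurable.forall fun K' =>
    (m_3 1 K').imp ((q_le K' a).imp ((q_le K' b).imp (q_le K' K))))))

theorem q_ch (a b V : ℕ) : Measurable fun y : XG Γ => chy y a b V :=
  (m_3 2 V).and ((q_le V a).and ((q_le V b).not.and (Measurable.forall fun V' =>
    (m_3 2 V').imp ((q_le V' a).imp ((q_le V' b).not.imp (q_le V V'))))))

theorem q_fn (a b U : ℕ) : Measurable fun y : XG Γ => fny y a b U :=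
  (m_3 3 U).and ((q_le U b).and ((q_le U a).not.and (Measurable.forall fun V =>
    (q_ch b a V).imp (q_le U V))))

theorem q_bf (a b : ℕ) : Measurable fun y : XG Γ => bfy y a b :=
  Measurable.exists fun U => q_fn a b U

theorem q_fs (a b U : ℕ) : Measurable fun y : XG Γ => fsy y a b U :=
  (q_fn a b U).and (Measurable.forall fun U' => (q_fn a b U').imp (q_le U' U))

theorem q_enl (a m : ℕ) : Measurable fun y : XG Γ => enl y a = m :=
  meas_nth (fun (y : XG Γ) m => y.2.2 0 m = true) (fun m => m_3 0 m) a m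

theorem q_enl' (a m : ℕ) : Measurable fun y : XG Γ => m = enl y a :=
  q_sub (P := fun _ k => m = k) (q_enl a) fun _ => measurable_const

theorem q_nde (a b K : ℕ) : Measurable fun y : XG Γ => ndy y (enl y a) (enl y b) K :=
  q_sub2 (P := fun y k l => ndy y k l K) (q_enl a) (q_enl b) fun k l => q_nd k l K

theorem q_che (a b K : ℕ) : Measurable fun y : XG Γ => chy y (enl y a) (enl y b) K :=
  q_sub2 (P := fun y k l => chy y k l K) (q_enl a) (q_enl b) fun k l => q_ch k l K

theorem q_bfe (a b : ℕ) : Measurable fun y : XG Γ => bfy y (enl y a) (enl y b) :=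
  q_sub2 (P := fun y k l => bfy y k l) (q_enl a) (q_enl b) fun k l => q_bf k l

theorem q_fse (a b K : ℕ) : Measurable fun y : XG Γ => fsy y (enl y a) (enl y b) K :=
  q_sub2 (P := fun y k l => fsy y k l K) (q_enl a) (q_enl b) fun k l => q_fs k l K

theorem q_pe (i a : ℕ) : Measurable fun y : XG Γ => y.2.2 i (enl y a) = true :=
  q_sub (P := fun y k => y.2.2 i k = true) (q_enl a) fun k => m_3 i k

theorem q_fyr (s : SS) (m : ℕ) : Measurable fun y : XG Γ => fyr y s m := by
  refine Measurable.or (measurable_const.and (measurable_const.and (q_enl' _ _))) ?_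
  refine Measurable.or (measurable_const.and (measurable_const.and (q_nde _ _ _))) ?_
  refine Measurable.or (measurable_const.and (measurable_const.and (q_enl' _ _))) ?_
  refine Measurable.or (measurable_const.and (measurable_const.and (q_che _ _ _))) ?_
  refine Measurable.or (measurable_const.and ((q_bfe _ _).not.and (q_enl' _ _))) ?_
  exact measurable_const.and (q_fse _ _ _)

theorem q_fy (s : SS) (m : ℕ) : Measurable fun y : XG Γ => fy y s = m :=
  meas_nth (fun (y : XG Γ) m => fyr y s m) (fun m => q_fyr s m) 0 m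

/-- the decoding is Borel -/
theorem meas_DT : Measurable (DT : XG Γ → XB Γ) := by
  refine Measurable.prodMk ?_ (Measurable.prodMk ?_ ?_)
  · refine measurable_pi_lambda _ fun i => measurable_pi_lambda _ fun m =>
      measurable_pi_lambda _ fun n => q_dec ?_
    refine (measurable_const.and (q_pe _ _)).or (measurable_const.and
      (Measurable.exists fun K => (q_nde _ _ _).and ?_))
    exact ((q_bfe _ _).and (m_3 _ _)).or ((q_bfe _ _).not.and (m_3 _ _))
  · refine measurable_pi_lambda _ fun γ => measurable_pi_lambda _ fun m =>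
      measurable_to_countable' fun k => ?_
    refine measurableSet_setOfPred.2 (meas_nth
      (fun (y : XG Γ) k => enl y k = y.2.1 γ (enl y m)) (fun k => ?_) 0 k)
    refine q_sub2 (P := fun y a b => a = y.2.1 γ b) (q_enl k) (q_enl m) fun a b => ?_
    have h1 : (fun y : XG Γ => a = y.2.1 γ b) = fun y => y.2.1 γ b = a := by
      funext y
      exact propext eq_comm
    rw [h1]
    exact m_2 γ b a
  · refine measurable_pi_lambda _ fun i => measurable_pi_lambda _ fun m =>
      measurable_to_bool ?_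
    exact measurableSet_setOfPred.2 (q_pe (4 * i + 6) m)

/-- the coding relation is Borel -/
theorem q_cod [Countable Γ] : Measurable fun y : XG Γ => CodT (DT y) (fy y) y := by
  have h1 : (fun y : XG Γ => CodT (DT y) (fy y) y) = fun y =>
      (∀ m, ∃ s, fy y s = m) ∧ (∀ s t, fy y s = fy y t ↔ US (DT y).1 s = US (DT y).1 t) ∧
      (∀ s t, y.1 (fy y s) (fy y t) = true ↔ US (DT y).1 t ⊂ US (DT y).1 s) ∧
      (∀ γ u v k u' v', (DT y).2.1 γ u = u' → (DT y).2.1 γ v = v' →
        y.2.1 γ (fy y (u, v, k)) = fy y (u', v', k)) ∧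
      (∀ n s, y.2.2 n (fy y s) = true ↔ PrS (DT y) s n) := by
    funext y
    apply propext
    constructor
    · intro h
      refine ⟨h.sur, h.eq, h.lt, ?_, h.pr⟩
      rintro γ u v k u' v' rfl rfl
      exact h.act γ u v k
    · rintro ⟨h1, h2, h3, h4, h5⟩
      exact ⟨h1, h2, h3, fun γ u v k => h4 γ u v k _ _ rfl rfl, h5⟩
  rw [h1]
  refine (Measurable.forall fun m => Measurable.exists fun s => q_fy s m).and ?_
  refine (Measurable.forall fun s => Measurable.forall fun t => Measurable.iff ?_ ?_).and ?_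
  · exact q_sub2 (P := fun _ k l => k = l) (q_fy s) (q_fy t) fun _ _ => measurable_const
  · exact (q_seteq (b_US s) (b_US t)).comp meas_DT
  refine (Measurable.forall fun s => Measurable.forall fun t => Measurable.iff ?_ ?_).and ?_
  · exact q_sub2 (P := fun (y : XG Γ) k l => y.1 k l = true) (q_fy s) (q_fy t)
      fun k l => m_1 k l
  · exact (q_ssub (b_US t) (b_US s)).comp meas_DT
  refine (Measurable.forall fun γ => Measurable.forall fun u => Measurable.forall fun v =>
    Measurable.forall fun k => Measurable.forall fun u' => Measurable.forall fun v' =>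
      Measurable.imp ?_ (Measurable.imp ?_ ?_)).and ?_
  · exact (b_2 γ u u').comp meas_DT
  · exact (b_2 γ v v').comp meas_DT
  · exact q_sub2 (P := fun y a b => y.2.1 γ a = b) (q_fy (u, v, k)) (q_fy (u', v', k))
      fun a b => m_2 γ a b
  refine Measurable.forall fun n => Measurable.forall fun s => Measurable.iff ?_ ?_
  · exact q_sub (P := fun (y : XG Γ) k => y.2.2 n k = true) (q_fy s) fun k => m_3 n k
  · exact (b_Pr s n).comp meas_DT

/-- The measurability part. -/
theorem t_TDM : S_TDM := fun _ _ _ => ⟨meas_DT, measurableSet_setOfPred.2 q_cod⟩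

/-! ### Isomorphism of structures with a sequence of binary relations -/

theorem isoB_symm {σ : Equiv.Perm ℕ} {x y : XB Γ} (h : IsoB σ x y) : IsoB σ.symm y x := by
  obtain ⟨h1, h2, h3⟩ := h
  refine ⟨fun i m n => ?_, fun γ m => ?_, fun i m => ?_⟩
  · rw [← h1, σ.apply_symm_apply, σ.apply_symm_apply]
  · have := h2 γ (σ.symm m)
    rw [σ.apply_symm_apply] at this
    rw [this, σ.symm_apply_apply]
  · rw [← h3, σ.apply_symm_apply]

theorem isoB_trans {σ τ : Equiv.Perm ℕ} {x y z : XB Γ} (h : IsoB σ x y) (h' : IsoB τ y z) :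
    IsoB (σ.trans τ) x z :=
  ⟨fun i m n => (h'.1 i _ _).trans (h.1 i m n), fun γ m => by
    show z.2.1 γ (τ (σ m)) = τ (σ (x.2.1 γ m))
    rw [h'.2.1, h.2.1], fun i m => (h'.2.2 i _).trans (h.2.2 i m)⟩

theorem bsB [Countable Γ] : BorelSpace (XB Γ) := by
  have h0 : BorelSpace (ℕ → ℕ → Bool) := inferInstance
  have s0 : SecondCountableTopology (ℕ → ℕ → Bool) := inferInstance
  have h1 : BorelSpace (ℕ → ℕ → ℕ → Bool) := Pi.borelSpace
  have h2 : BorelSpace (Γ → ℕ → ℕ) := inferInstance
  have h3 : BorelSpace ((Γ → ℕ → ℕ) × (ℕ → ℕ → Bool)) := Prod.borelSpace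
  exact Prod.borelSpace

/-- isomorphism of a Borel family of structures is analytic -/
theorem analytic_isoB [Countable Γ] (u : (ℕ → Bool) → XB Γ) (hu : Measurable u) :
    AnalyticSet {p : (ℕ → Bool) × (ℕ → Bool) | ∃ σ : Equiv.Perm ℕ, IsoB σ (u p.1) (u p.2)} := by
  set Ω : Type := ((ℕ → Bool) × (ℕ → Bool)) × ((ℕ → ℕ) × (ℕ → ℕ)) with hΩ
  have m1 : ∀ a b : ℕ, Measurable fun q : Ω => q.2.1 a = b := fun a b => by
    have h : Measurable fun q : Ω => q.2.1 a :=
      (measurable_pi_apply a).comp (measurable_fst.comp measurable_snd)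
    exact measurableSet_setOfPred.1 (h (measurableSet_singleton b))
  have m2 : ∀ a b : ℕ, Measurable fun q : Ω => q.2.2 a = b := fun a b => by
    have h : Measurable fun q : Ω => q.2.2 a :=
      (measurable_pi_apply a).comp (measurable_snd.comp measurable_snd)
    exact measurableSet_setOfPred.1 (h (measurableSet_singleton b))
  have mu : Measurable fun q : Ω => u q.1.1 := hu.comp (measurable_fst.comp measurable_fst)
  have mv : Measurable fun q : Ω => u q.1.2 := hu.comp (measurable_snd.comp measurable_fst)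
  let P : Ω → Prop := fun q => (∀ a b, q.2.1 a = b → q.2.2 b = a) ∧
    (∀ a b, q.2.2 a = b → q.2.1 b = a) ∧
    (∀ i a b c d, q.2.1 a = c → q.2.1 b = d →
      ((u q.1.2).1 i c d = true ↔ (u q.1.1).1 i a b = true)) ∧
    (∀ (γ : Γ) (a b c d : ℕ), q.2.1 a = c → q.2.1 b = d → (u q.1.1).2.1 γ a = b →
      (u q.1.2).2.1 γ c = d) ∧
    ∀ i a c, q.2.1 a = c → ((u q.1.2).2.2 i c = true ↔ (u q.1.1).2.2 i a = true)
  have hP : Measurable P := by
    refine (Measurable.forall fun a => Measurable.forall fun b => (m1 a b).imp (m2 b a)).and ?_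
    refine (Measurable.forall fun a => Measurable.forall fun b => (m2 a b).imp (m1 b a)).and ?_
    refine (Measurable.forall fun i => Measurable.forall fun a => Measurable.forall fun b =>
      Measurable.forall fun c => Measurable.forall fun d =>
        (m1 a c).imp ((m1 b d).imp (Measurable.iff ?_ ?_))).and ?_
    · exact (b_1 i c d true).comp mv
    · exact (b_1 i a b true).comp mu
    refine (Measurable.forall fun γ => Measurable.forall fun a => Measurable.forall fun b =>
      Measurable.forall fun c => Measurable.forall fun d => (m1 a c).imp ((m1 b d).imp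
        (Measurable.imp ?_ ?_))).and ?_
    · exact (b_2 γ a b).comp mu
    · exact (b_2 γ c d).comp mv
    refine Measurable.forall fun i => Measurable.forall fun a => Measurable.forall fun c =>
      (m1 a c).imp (Measurable.iff ?_ ?_)
    · exact (b_3 i c).comp mv
    · exact (b_3 i a).comp mu
  have h2 : {p : (ℕ → Bool) × (ℕ → Bool) | ∃ σ : Equiv.Perm ℕ, IsoB σ (u p.1) (u p.2)} =
      Prod.fst '' {q : Ω | P q} := by
    ext p
    constructor
    · rintro ⟨σ, hσ⟩
      refine ⟨(p, (⇑σ, ⇑σ.symm)), ⟨?_, ?_, ?_, ?_, ?_⟩, rfl⟩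
      · rintro a b rfl
        exact σ.symm_apply_apply a
      · rintro a b rfl
        exact σ.apply_symm_apply a
      · rintro i a b c d rfl rfl
        exact Bool.eq_iff_iff.1 (hσ.1 i a b)
      · rintro γ a b c d rfl rfl h
        show (u p.2).2.1 γ (σ a) = σ b
        rw [hσ.2.1, h]
      · rintro i a c rfl
        exact Bool.eq_iff_iff.1 (hσ.2.2 i a)
    · rintro ⟨q, ⟨h1, h2, h3, h4, h5⟩, rfl⟩
      refine ⟨⟨q.2.1, q.2.2, fun a => h1 a _ rfl, fun a => h2 a _ rfl⟩, ?_, ?_, ?_⟩
      · exact fun i a b => Bool.eq_iff_iff.2 (h3 i a b _ _ rfl rfl)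
      · exact fun γ m => h4 γ m _ _ _ rfl rfl rfl
      · exact fun i m => Bool.eq_iff_iff.2 (h5 i m _ rfl)
  rw [h2]
  exact (measurableSet_setOfPred.2 hP).analyticSet_image measurable_fst

/-! ### The theorem -/

/-- The theorem on hereditarily decomposable structures with a group action, from the theorem on
semilinear orders, the combinatorial part and the coding part. -/
theorem t_TD (h : S_OUTT) (hA : S_TDA) (hB : S_TDB) : S_TD := by
  intro Γ _ _ B hBm hHD hinv
  have b1 : BorelSpace (XB Γ) := bsB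
  have b2 : BorelSpace (XG Γ) := bsG
  have T : TDB Γ := hB hA Γ
  set A : Set (XG Γ) := {y | DT y ∈ B ∧ CodT (DT y) (fy y) y} with hAdef
  have key : ∀ {x : XB Γ} {f : SS → ℕ} {y : XG Γ}, x ∈ B → CodT x f y →
      y ∈ A ∧ ∃ θ : Equiv.Perm ℕ, IsoB θ (DT y) x := by
    intro x f y hx hc
    obtain ⟨θ, h1, h2⟩ := T.dec x f y (hHD x hx) hc
    exact ⟨⟨hinv x hx _ _ (isoB_symm h1), h2⟩, θ, h1⟩
  have hAm : MeasurableSet A :=
    (meas_DT hBm).inter (measurableSet_setOfPred.2 q_cod)
  have hAT : ∀ y ∈ A, TO y := by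
    rintro y ⟨h1, h2⟩
    exact T.semi _ _ _ (hHD _ h1) h2
  have hAi : ∀ y ∈ A, ∀ (y' : XG Γ) (σ : Equiv.Perm ℕ), Isom σ y y' → y' ∈ A := by
    rintro y ⟨h1, h2⟩ y' σ hσ
    exact (key h1 (T.trans _ _ _ _ σ h2 hσ)).1
  refine transfer (EX := fun x y => ∃ σ : Equiv.Perm ℕ, Isom σ x y)
    (EY := fun x y => ∃ σ : Equiv.Perm ℕ, IsoB σ x y) ?_ ?_ ?_ DT meas_DT A B ?_ ?_ ?_ ?_ ?_
    (h Γ A hAm hAT hAi)
  · rintro x y ⟨σ, hσ⟩
    exact ⟨_, iso_symm hσ⟩
  · rintro x y z ⟨σ, hσ⟩ ⟨τ, hτ⟩
    exact ⟨_, iso_trans hσ hτ⟩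
  · rintro x y z ⟨σ, hσ⟩ ⟨τ, hτ⟩
    exact ⟨_, isoB_trans hσ hτ⟩
  · exact fun y hy => hy.1
  · intro x hx
    obtain ⟨f, y, hy⟩ := T.ex x (hHD x hx)
    obtain ⟨h1, h2⟩ := key hx hy
    exact ⟨y, h1, h2⟩
  · rintro y y' ⟨h1, h2⟩ ⟨σ, hσ⟩
    exact (key h1 (T.trans _ _ _ _ σ.symm h2 (iso_symm hσ))).2
  · rintro y ⟨h1, h2⟩
    refine ⟨{y}, Set.countable_singleton y, ?_⟩
    rintro y' ⟨h3, h4⟩ ⟨σ, hσ⟩
    exact ⟨y, rfl, T.uni _ _ _ _ _ h2 (T.pull _ _ _ _ σ h4 hσ)⟩
  · exact fun u hu => analytic_isoB u hu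

end Pool.Agent.Y576.TH
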